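import Pool.Agent.Lib.MP_6bc78b_nt.MS.P3.H34.KbAux

/-! Project MS, Part III, module KB: the bound of the normalised integrand. -/

set_option autoImplicit false

open Complex Filter Topology ArithmeticFunction

namespace Pool.Agent.Lib.MP_6bc78b_nt.MS.P3.H34

/-- Bound of `NN`. -/
theorem nn_bd (hRH : RiemannHypothesis) (h4 : R4Statement) (hsme : SmeStatement)
    (haab : AabStatement) (hzb : ZbStatement) (hmj : MjStatement) (th c1 c2 : ℝ) (hth : 0 < th)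
    (hth2 : th < 1 / 2) : ∃ C T0 : ℝ, 0 ≤ C ∧ ∀ T : ℝ, T0 ≤ T → 200 ≤ Real.log T →
      ∀ Z ∈ sqB, ∀ A ∈ pd, ∀ W : ℂ, W.re = 2 →
        ‖NN th c1 c2 T (1 + Z / Real.log T) (sc T A) (W / Real.log T)‖ * min ‖W‖ (Real.log T) ≤
          C * ‖W‖ ^ (1 / 20 : ℝ) * ‖W‖ ^ (1 / 2 : ℝ) := by
  obtain ⟨CI, hCI, hint⟩ := int_bd hRH hzb hsme haab hmj th c1 c2 hth hth2
  obtain ⟨CM, hCM⟩ := hmj.2
  obtain ⟨T1, hR4⟩ := h4 th c1 c2 hth hth2
  refine ⟨(2 * Real.pi)⁻¹ * CI * |CM|, T1, by positivity, ?_⟩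
  intro T hT hL Z hZ A hA W hW
  obtain ⟨-, hNN⟩ := hR4 T hT Z hZ A hA W hW
  set L : ℝ := Real.log T with hLd
  have hL0 : 0 < L := by linarith
  have hW2 := re_ge hW
  set m : ℝ := min ‖W‖ L with hm
  have hm0 : 0 < m := lt_min (by linarith) hL0
  obtain ⟨hMi, hMb⟩ := hCM W hW
  have hMb' : ∫ u : ℝ, mj W u ≤ |CM| * ‖W‖ ^ (1 / 2 : ℝ) :=
    hMb.trans (mul_le_mul_of_nonneg_right (le_abs_self _) (by positivity))
  have hMi' : MeasureTheory.Integrable (fun u : ℝ => CI * ‖W‖ ^ (1 / 20 : ℝ) / m * mj W u) :=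
    hMi.const_mul _
  rw [hNN, norm_mul]
  have hn : ‖((2 * Real.pi : ℝ) : ℂ)⁻¹‖ = (2 * Real.pi)⁻¹ := by
    rw [norm_inv, Complex.norm_real, Real.norm_of_nonneg (by positivity)]
  rw [hn]
  have hI : ‖∫ u : ℝ, PH th c1 c2 (ln u) * Complex.exp (th * ln u) *
        SM (1 + Z / (L : ℂ)) (ln u / (L : ℂ)) (W / (L : ℂ)) (sc T A)‖ ≤
      ∫ u : ℝ, CI * ‖W‖ ^ (1 / 20 : ℝ) / m * mj W u := by
    apply MeasureTheory.norm_integral_le_of_norm_le hMi'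
    refine Filter.Eventually.of_forall fun u => ?_
    have h1 := hint L hL Z hZ A hA W hW u
    rw [div_mul_eq_mul_div, le_div_iff₀ hm0]
    exact h1
  rw [MeasureTheory.integral_const_mul] at hI
  calc (2 * Real.pi)⁻¹ * ‖∫ u : ℝ, PH th c1 c2 (ln u) * Complex.exp (th * ln u) *
        SM (1 + Z / (L : ℂ)) (ln u / (L : ℂ)) (W / (L : ℂ)) (sc T A)‖ * m
      ≤ (2 * Real.pi)⁻¹ * (CI * ‖W‖ ^ (1 / 20 : ℝ) / m * (|CM| * ‖W‖ ^ (1 / 2 : ℝ))) * m := by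
        apply mul_le_mul_of_nonneg_right _ hm0.le
        apply mul_le_mul_of_nonneg_left _ (by positivity)
        exact hI.trans (mul_le_mul_of_nonneg_left hMb' (by positivity))
    _ = (2 * Real.pi)⁻¹ * CI * |CM| * ‖W‖ ^ (1 / 20 : ℝ) * ‖W‖ ^ (1 / 2 : ℝ) := by
        field_simp

/-- KB. -/
theorem kb (hRH : RiemannHypothesis) (h4 : R4Statement) (hsme : SmeStatement)
    (haab : AabStatement) (hzb : ZbStatement) (hgm : GmStatement) (hmj : MjStatement) :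
    KbStatement := by
  intro th c1 c2 hth hth2 j
  obtain ⟨CN, T1, hCN, hNN⟩ := nn_bd hRH h4 hsme haab hzb hmj th c1 c2 hth hth2
  obtain ⟨CH, hCH, hHz⟩ := hz_bd hRH hzb
  obtain ⟨T2, hG⟩ := Filter.eventually_atTop.mp (hgm.2.2.2 j 1 1 one_pos)
  refine ⟨4 * CH * CN, max (max T1 T2) (Real.exp 200), ?_⟩
  intro T hT Z hZ A hA W hW
  have hT1 : T1 ≤ T := (le_max_left _ _).trans ((le_max_left _ _).trans hT)
  have hT2 : T2 ≤ T := (le_max_right _ _).trans ((le_max_left _ _).trans hT)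
  have hT3 : Real.exp 200 ≤ T := (le_max_right _ _).trans hT
  have hT0 : 0 < T := (Real.exp_pos _).trans_le hT3
  have hL : 200 ≤ Real.log T := by
    rw [Real.le_log_iff_exp_le hT0]; exact hT3
  have h1 := hNN T hT1 hL Z hZ A hA W hW
  have h2 := hHz (Real.log T) (by linarith) Z hZ A hA W hW
  have h3 := hG T hT2 Z (sqB_le hZ)
  set L : ℝ := Real.log T with hLd
  have hL0 : 0 < L := by linarith
  have hW2 := re_ge hW
  have hZ1 := sqB_le hZ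
  set m : ℝ := min ‖W‖ L with hm
  have hm0 : 0 < m := lt_min (by linarith) hL0
  have h5 : ‖Gm j T (1 + Z / (L : ℂ)) / (cG T * L ^ j)‖ ≤ 4 := by
    have h6 : ‖Complex.exp Z‖ ≤ 3 := by
      rw [Complex.norm_exp]
      have h7 : Real.exp Z.re ≤ Real.exp 1 :=
        Real.exp_le_exp.mpr ((Complex.re_le_norm Z).trans hZ1)
      linarith [Real.exp_one_lt_d9]
    calc ‖Gm j T (1 + Z / (L : ℂ)) / (cG T * L ^ j)‖
        = ‖(Gm j T (1 + Z / (L : ℂ)) / (cG T * L ^ j) - Complex.exp Z) + Complex.exp Z‖ := by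
          rw [sub_add_cancel]
      _ ≤ ‖Gm j T (1 + Z / (L : ℂ)) / (cG T * L ^ j) - Complex.exp Z‖ + ‖Complex.exp Z‖ :=
          norm_add_le _ _
      _ ≤ 4 := by linarith
  have hHn : ‖Hz (1 + Z / (L : ℂ)) (sc T A) (W / (L : ℂ)) / (L : ℂ)‖ ≤
      CH * ‖W‖ ^ (1 / 20 : ℝ) * m := by
    rw [norm_div, Complex.norm_real, Real.norm_of_nonneg hL0.le]
    exact h2
  have hKK : KK th c1 c2 T j Z A W = (Gm j T (1 + Z / (L : ℂ)) / (cG T * L ^ j)) *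
      (Hz (1 + Z / (L : ℂ)) (sc T A) (W / (L : ℂ)) / (L : ℂ)) *
      NN th c1 c2 T (1 + Z / (L : ℂ)) (sc T A) (W / (L : ℂ)) := by
    unfold KK
    rw [← hLd]
    ring
  rw [hKK, norm_mul, norm_mul]
  set w : ℝ := ‖W‖ ^ (1 / 20 : ℝ) with hw
  have hw0 : 0 ≤ w := by positivity
  have hww : w * (w * ‖W‖ ^ (1 / 2 : ℝ)) = ‖W‖ ^ (3 / 5 : ℝ) := by
    rw [hw, ← Real.rpow_add (by linarith), ← Real.rpow_add (by linarith)]
    norm_num
  calc ‖Gm j T (1 + Z / (L : ℂ)) / (cG T * L ^ j)‖ *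
        ‖Hz (1 + Z / (L : ℂ)) (sc T A) (W / (L : ℂ)) / (L : ℂ)‖ *
        ‖NN th c1 c2 T (1 + Z / (L : ℂ)) (sc T A) (W / (L : ℂ))‖
      ≤ 4 * (CH * w * m) * ‖NN th c1 c2 T (1 + Z / (L : ℂ)) (sc T A) (W / (L : ℂ))‖ := by
        apply mul_le_mul_of_nonneg_right _ (norm_nonneg _)
        exact mul_le_mul h5 hHn (norm_nonneg _) (by norm_num)
    _ = 4 * CH * w * (‖NN th c1 c2 T (1 + Z / (L : ℂ)) (sc T A) (W / (L : ℂ))‖ * m) := by ring
    _ ≤ 4 * CH * w * (CN * w * ‖W‖ ^ (1 / 2 : ℝ)) :=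
        mul_le_mul_of_nonneg_left h1 (by positivity)
    _ = 4 * CH * CN * (w * (w * ‖W‖ ^ (1 / 2 : ℝ))) := by ring
    _ = 4 * CH * CN * ‖W‖ ^ (3 / 5 : ℝ) := by rw [hww]

end Pool.Agent.Lib.MP_6bc78b_nt.MS.P3.H34
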