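import Pool.Agent.Lib.MP_6bc78b_nt.MS.P3.H34.KbAux

/-! Project MS, Part III, module KL: the limit of the normalised integrand. -/

set_option autoImplicit false

open Complex Filter Topology ArithmeticFunction

namespace Pool.Agent.Lib.MP_6bc78b_nt.MS.P3.H34

theorem tendsto_logC : Tendsto (fun T : ℝ => Real.log T) atTop atTop := Real.tendsto_log_atTop

/-- Zeta at `1 + x/log T`. -/
theorem zlim (hzr : ZrStatement) {x : ℂ} (hx : x ≠ 0) :
    Tendsto (fun T : ℝ => riemannZeta (1 + x / (Real.log T : ℂ)) / (Real.log T : ℂ)) atTop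
      (𝓝 (1 / x)) :=
  (hzr.2.2.2.2.2 x hx).comp tendsto_logC

/-- `x/log T → 0`. -/
theorem small (x : ℂ) {δ : ℝ} (hδ : 0 < δ) :
    ∀ᶠ T : ℝ in atTop, ‖x / (Real.log T : ℂ)‖ ≤ δ := by
  have h := tendsto_logC.eventually_ge_atTop (max 1 (‖x‖ / δ))
  filter_upwards [h] with T hT
  have h1 : 1 ≤ Real.log T := (le_max_left _ _).trans hT
  have h2 : ‖x‖ / δ ≤ Real.log T := (le_max_right _ _).trans hT
  rw [norm_div, Complex.norm_real, Real.norm_of_nonneg (by linarith),
    div_le_iff₀ (by linarith)]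
  rw [div_le_iff₀ hδ] at h2
  linarith

/-- The weight. -/
theorem glim (hgm : GmStatement) (j : ℕ) (Z : ℂ) :
    Tendsto (fun T : ℝ => Gm j T (1 + Z / (Real.log T : ℂ)) / (cG T * (Real.log T : ℂ) ^ j)) atTop
      (𝓝 (Complex.exp Z)) := by
  rw [Metric.tendsto_nhds]
  intro ε hε
  filter_upwards [hgm.2.2.2 j ‖Z‖ (ε / 2) (by linarith)] with T hT
  rw [dist_eq_norm]
  have := hT Z le_rfl
  linarith

theorem frac5 (a b c d e L : ℂ) (hL : L ≠ 0) :
    a * b * c / (d * e) / L = (a / L) * (b / L) * (c / L) / ((d / L) * (e / L)) := by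
  rw [div_mul_div_comm, div_mul_div_comm, div_mul_div_comm, div_div_div_eq,
    show L * L * L * (d * e) = (L * L) * ((d * e) * L) by ring,
    show a * b * c * (L * L) = (L * L) * (a * b * c) by ring,
    mul_div_mul_left _ _ (mul_ne_zero hL hL), div_div]

theorem frac6 (a b c d e f L : ℂ) (hL : L ≠ 0) :
    a * b * c / (d * e * f) =
      (a / L) * (b / L) * (c / L) / ((d / L) * (e / L) * (f / L)) := by
  rw [div_mul_div_comm, div_mul_div_comm, div_mul_div_comm, div_mul_div_comm, div_div_div_eq,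
    show L * L * L * (d * e * f) = (L * L * L) * (d * e * f) by ring,
    show a * b * c * (L * L * L) = (L * L * L) * (a * b * c) by ring,
    mul_div_mul_left _ _ (mul_ne_zero (mul_ne_zero hL hL) hL)]

/-- The factor `Hz`. -/
theorem hzlim (hzr : ZrStatement) {Z : ℂ} (hZ : Z ∈ sqB) {A : Fin 3 → ℂ} (hA : A ∈ pd) {W : ℂ}
    (hW : W.re = 2) :
    Tendsto (fun T : ℝ => Hz (1 + Z / (Real.log T : ℂ)) (sc T A) (W / (Real.log T : ℂ)) /
      (Real.log T : ℂ)) atTop (𝓝 (Z * (Z + W) / (∏ i, (Z + A i)))) := by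
  have hZ2 := sqB_ge hZ
  have hZ3 := abs_le.mp (sqB_re hZ)
  have hZ0 : Z ≠ 0 := by
    intro h0; rw [h0, norm_zero] at hZ2; linarith
  have hA0 : ∀ i, Z + A i ≠ 0 := by
    intro i h0
    have hAi : ‖A i‖ ≤ 1 / 4 := hA i
    have h1 : Z = -A i := by rw [eq_neg_iff_add_eq_zero]; exact h0
    rw [h1, norm_neg] at hZ2
    linarith
  have hW0 : Z + W ≠ 0 := by
    intro h0
    have := congrArg Complex.re h0
    rw [Complex.add_re, hW, Complex.zero_re] at this
    linarith
  have hlim := (((zlim hzr (hA0 0)).mul (zlim hzr (hA0 1))).mul (zlim hzr (hA0 2))).div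
    ((zlim hzr hZ0).mul (zlim hzr hW0)) (mul_ne_zero (one_div_ne_zero hZ0) (one_div_ne_zero hW0))
  have hval : 1 / (Z + A 0) * (1 / (Z + A 1)) * (1 / (Z + A 2)) / (1 / Z * (1 / (Z + W))) =
      Z * (Z + W) / (∏ i, (Z + A i)) := by
    rw [Fin.prod_univ_three]
    have := hA0 0
    have := hA0 1
    have := hA0 2
    field_simp
  rw [hval] at hlim
  refine hlim.congr' ?_
  filter_upwards [tendsto_logC.eventually_ge_atTop 1] with T hT
  have hLC : (Real.log T : ℂ) ≠ 0 := by
    have : (0 : ℝ) < Real.log T := by linarith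
    exact_mod_cast this.ne'
  unfold Hz
  rw [Fin.prod_univ_three, frac5 _ _ _ _ _ _ hLC]
  have he : ∀ i, 1 + Z / (Real.log T : ℂ) + sc T A i = 1 + (Z + A i) / (Real.log T : ℂ) := by
    intro i
    unfold sc
    ring
  have he2 : 1 + Z / (Real.log T : ℂ) + W / (Real.log T : ℂ) =
      1 + (Z + W) / (Real.log T : ℂ) := by ring
  rw [he, he, he, he2]
  rfl

/-- The correction factor. -/
theorem aalim (haal : AalStatement) (Z W V : ℂ) (A : Fin 3 → ℂ) :
    Tendsto (fun T : ℝ => AA (1 + Z / (Real.log T : ℂ)) (V / (Real.log T : ℂ))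
      (W / (Real.log T : ℂ)) (sc T A)) atTop (𝓝 1) := by
  rw [Metric.tendsto_nhds]
  intro ε hε
  obtain ⟨δ, hδ, h⟩ := haal.1 (ε / 2) (by linarith)
  filter_upwards [small Z hδ, small V hδ, small W hδ, small (A 0) hδ, small (A 1) hδ,
    small (A 2) hδ] with T h1 h2 h3 h4 h5 h6
  rw [dist_eq_norm]
  have := h (1 + Z / (Real.log T : ℂ)) (V / (Real.log T : ℂ)) (W / (Real.log T : ℂ)) (sc T A)
    (by rw [add_sub_cancel_left]; exact h1) h2 h3 (by
      intro i
      fin_cases i
      · exact h4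
      · exact h5
      · exact h6)
  linarith

/-- The factor `SM`. -/
theorem smlim (hsme : SmeStatement) (haal : AalStatement) (hzr : ZrStatement) {Z : ℂ}
    (hZ : Z ∈ sqB) {A : Fin 3 → ℂ} (hA : A ∈ pd) {W V : ℂ} (hW : W.re = 2) (hV : V.re = 2) :
    Tendsto (fun T : ℝ => SM (1 + Z / (Real.log T : ℂ)) (V / (Real.log T : ℂ))
      (W / (Real.log T : ℂ)) (sc T A)) atTop
      (𝓝 ((∏ i, (V + A i)) / (V * (V + W) * (V - Z)))) := by
  have hZ3 := abs_le.mp (sqB_re hZ)
  have hV0 : V ≠ 0 := by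
    intro h0
    rw [h0, Complex.zero_re] at hV
    norm_num at hV
  have hA0 : ∀ i, V + A i ≠ 0 := by
    intro i h0
    have hAi : ‖A i‖ ≤ 1 / 4 := hA i
    have hr := abs_le.mp (Complex.abs_re_le_norm (A i))
    have := congrArg Complex.re h0
    rw [Complex.add_re, hV, Complex.zero_re] at this
    linarith
  have hW0 : V + W ≠ 0 := by
    intro h0
    have := congrArg Complex.re h0
    rw [Complex.add_re, hW, hV, Complex.zero_re] at this
    norm_num at this
  have hZ0 : V - Z ≠ 0 := by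
    intro h0
    have := congrArg Complex.re h0
    rw [Complex.sub_re, hV, Complex.zero_re] at this
    linarith
  have hlim := ((((zlim hzr hV0).mul (zlim hzr hW0)).mul (zlim hzr hZ0)).div
    (((zlim hzr (hA0 0)).mul (zlim hzr (hA0 1))).mul (zlim hzr (hA0 2)))
    (mul_ne_zero (mul_ne_zero (one_div_ne_zero (hA0 0)) (one_div_ne_zero (hA0 1)))
      (one_div_ne_zero (hA0 2)))).mul (aalim haal Z W V A)
  have hval : 1 / V * (1 / (V + W)) * (1 / (V - Z)) /
      (1 / (V + A 0) * (1 / (V + A 1)) * (1 / (V + A 2))) * 1 =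
      (∏ i, (V + A i)) / (V * (V + W) * (V - Z)) := by
    rw [Fin.prod_univ_three]
    have := hA0 0
    have := hA0 1
    have := hA0 2
    field_simp
  rw [hval] at hlim
  refine hlim.congr' ?_
  filter_upwards [tendsto_logC.eventually_ge_atTop 200] with T hT
  have hLC : (Real.log T : ℂ) ≠ 0 := by
    have : (0 : ℝ) < Real.log T := by linarith
    exact_mod_cast this.ne'
  obtain ⟨hreg, e1, e2, e3, e4⟩ := reg_ok hT hZ hA hW hV
  have hs := (hsme _ _ _ _ hreg e1 e2 e3 e4).2
  have hsc : sc T A = fun i => A i / (Real.log T : ℂ) := rfl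
  rw [hsc, hs, Fin.prod_univ_three, frac6 _ _ _ _ _ _ _ hLC]
  have he : ∀ i, 1 + V / (Real.log T : ℂ) + A i / (Real.log T : ℂ) =
      1 + (V + A i) / (Real.log T : ℂ) := by
    intro i
    ring
  have he2 : 1 + V / (Real.log T : ℂ) + W / (Real.log T : ℂ) =
      1 + (V + W) / (Real.log T : ℂ) := by ring
  have he3 : 2 - (1 + Z / (Real.log T : ℂ)) + V / (Real.log T : ℂ) =
      1 + (V - Z) / (Real.log T : ℂ) := by ring
  simp only [he, he2, he3]
  rfl

theorem ln_ne (u : ℝ) : ln u ≠ 0 := by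
  intro h0
  have := congrArg Complex.re h0
  rw [ln_re, Complex.zero_re] at this
  norm_num at this

theorem cont_ln : Continuous ln := by
  unfold ln
  exact continuous_const.add (Complex.continuous_ofReal.mul continuous_const)

theorem cont_PH {th c1 c2 : ℝ} (hth : 0 < th) : Continuous fun u : ℝ => PH th c1 c2 (ln u) := by
  unfold PH
  have hthC : (th : ℂ) ≠ 0 := by exact_mod_cast hth.ne'
  refine Continuous.add ?_ ?_
  · refine Continuous.div continuous_const (continuous_const.mul (cont_ln.pow 2)) fun u => ?_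
    exact mul_ne_zero hthC (pow_ne_zero _ (ln_ne u))
  · refine Continuous.div continuous_const (continuous_const.mul (cont_ln.pow 3)) fun u => ?_
    exact mul_ne_zero (pow_ne_zero _ hthC) (pow_ne_zero _ (ln_ne u))

/-- The factor `NN`. -/
theorem nnlim (hRH : RiemannHypothesis) (h4 : R4Statement) (hsme : SmeStatement)
    (haal : AalStatement) (haab : AabStatement) (hzr : ZrStatement) (hzb : ZbStatement)
    (hmj : MjStatement) {th c1 c2 : ℝ} (hth : 0 < th) (hth2 : th < 1 / 2) {Z : ℂ}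
    (hZ : Z ∈ sqB) {A : Fin 3 → ℂ} (hA : A ∈ pd) {W : ℂ} (hW : W.re = 2) :
    Tendsto (fun T : ℝ => NN th c1 c2 T (1 + Z / (Real.log T : ℂ)) (sc T A)
      (W / (Real.log T : ℂ))) atTop
      (𝓝 (((2 * Real.pi : ℝ) : ℂ)⁻¹ * ∫ u : ℝ, VI th c1 c2 Z A W u)) := by
  obtain ⟨CI, hCI, hint⟩ := int_bd hRH hzb hsme haab hmj th c1 c2 hth hth2
  obtain ⟨CM, hCM⟩ := hmj.2
  obtain ⟨T1, hR4⟩ := h4 th c1 c2 hth hth2
  have hW2 := re_ge hW
  have hW0 : 0 < ‖W‖ := by linarith
  have hD : Tendsto (fun T : ℝ => ∫ u : ℝ, PH th c1 c2 (ln u) * Complex.exp (th * ln u) *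
      SM (1 + Z / (Real.log T : ℂ)) (ln u / (Real.log T : ℂ)) (W / (Real.log T : ℂ)) (sc T A))
      atTop (𝓝 (∫ u : ℝ, VI th c1 c2 Z A W u)) := by
    apply MeasureTheory.tendsto_integral_filter_of_dominated_convergence
      (fun u : ℝ => CI * ‖W‖ ^ (1 / 20 : ℝ) / ‖W‖ * mj W u)
    · filter_upwards [eventually_ge_atTop T1] with T hT
      have hm := (hR4 T hT Z hZ A hA W hW).1
      have hc : Continuous fun u : ℝ => PH th c1 c2 (ln u) * Complex.exp (th * ln u) :=
        (cont_PH hth).mul (Complex.continuous_exp.comp (continuous_const.mul cont_ln))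
      exact hc.aestronglyMeasurable.mul hm
    · filter_upwards [tendsto_logC.eventually_ge_atTop (max 200 ‖W‖)] with T hT
      have h200 : 200 ≤ Real.log T := (le_max_left _ _).trans hT
      have hWL : ‖W‖ ≤ Real.log T := (le_max_right _ _).trans hT
      refine Filter.Eventually.of_forall fun u => ?_
      have h1 := hint (Real.log T) h200 Z hZ A hA W hW u
      rw [min_eq_left hWL] at h1
      rw [div_mul_eq_mul_div, le_div_iff₀ hW0]
      exact h1
    · exact (hCM W hW).1.const_mul _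
    · refine Filter.Eventually.of_forall fun u => ?_
      have h1 := (smlim hsme haal hzr hZ hA hW (ln_re u)).const_mul
        (PH th c1 c2 (ln u) * Complex.exp (th * ln u))
      have h2 : VI th c1 c2 Z A W u = PH th c1 c2 (ln u) * Complex.exp (th * ln u) *
          ((∏ i, (ln u + A i)) / (ln u * (ln u + W) * (ln u - Z))) := by
        unfold VI
        rw [mul_div_assoc]
      rw [h2]
      exact h1
  refine (hD.const_mul (((2 * Real.pi : ℝ) : ℂ)⁻¹)).congr' ?_
  filter_upwards [eventually_ge_atTop T1] with T hT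
  exact (hR4 T hT Z hZ A hA W hW).2.symm

/-- KL. -/
theorem kl (hRH : RiemannHypothesis) (h4 : R4Statement) (hsme : SmeStatement)
    (haal : AalStatement) (haab : AabStatement) (hzr : ZrStatement) (hzb : ZbStatement)
    (hgm : GmStatement) (hmj : MjStatement) : KlStatement := by
  intro th c1 c2 hth hth2 j Z hZ A hA W hW
  have h := ((glim hgm j Z).mul (hzlim hzr hZ hA hW)).mul
    (nnlim hRH h4 hsme haal haab hzr hzb hmj hth hth2 hZ hA hW (c1 := c1) (c2 := c2))
  have hKI : KI th c1 c2 Z A W = Complex.exp Z * (Z * (Z + W) / (∏ i, (Z + A i))) *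
      (((2 * Real.pi : ℝ) : ℂ)⁻¹ * ∫ u : ℝ, VI th c1 c2 Z A W u) := by
    unfold KI
    rw [mul_div_assoc]
  rw [hKI]
  refine h.congr fun T => ?_
  unfold KK
  ring

end Pool.Agent.Lib.MP_6bc78b_nt.MS.P3.H34
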