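import Pool.Agent.Lib.MP_6bc78b_nt.MS.P3.Iface

/-! Project MS, Part III: bounds for the factors of the normalised integrand (for KB and KL). -/

set_option autoImplicit false

open Complex Filter Topology ArithmeticFunction

namespace Pool.Agent.Lib.MP_6bc78b_nt.MS.P3.H34

theorem sqB_le {Z : ℂ} (hZ : Z ∈ sqB) : ‖Z‖ ≤ 1 := by
  obtain ⟨h1, h2, -⟩ := hZ
  have := Complex.norm_le_abs_re_add_abs_im Z
  linarith

theorem sqB_ge {Z : ℂ} (hZ : Z ∈ sqB) : 1 / 2 ≤ ‖Z‖ := by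
  obtain ⟨-, -, h3 | h3⟩ := hZ
  · rw [← h3]; exact Complex.abs_re_le_norm Z
  · rw [← h3]; exact Complex.abs_im_le_norm Z

theorem sqB_re {Z : ℂ} (hZ : Z ∈ sqB) : |Z.re| ≤ 1 / 2 := hZ.1

theorem re_ge {W : ℂ} (hW : W.re = 2) : 2 ≤ ‖W‖ := by
  have := Complex.re_le_norm W
  linarith

theorem rpow_le_self {x : ℝ} (hx : 1 ≤ x) : x ^ (1 / 20 : ℝ) ≤ x := by
  calc x ^ (1 / 20 : ℝ) ≤ x ^ (1 : ℝ) := Real.rpow_le_rpow_of_exponent_le hx (by norm_num)
    _ = x := Real.rpow_one x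

theorem rpow_two_mul {x y : ℝ} (hy : 0 ≤ y) (hx0 : 0 ≤ x) (h : x ≤ 2 * y) :
    x ^ (1 / 20 : ℝ) ≤ 2 * y ^ (1 / 20 : ℝ) := by
  calc x ^ (1 / 20 : ℝ) ≤ (2 * y) ^ (1 / 20 : ℝ) := Real.rpow_le_rpow hx0 h (by norm_num)
    _ = 2 ^ (1 / 20 : ℝ) * y ^ (1 / 20 : ℝ) := Real.mul_rpow (by norm_num) hy
    _ ≤ 2 * y ^ (1 / 20 : ℝ) :=
        mul_le_mul_of_nonneg_right (rpow_le_self (by norm_num)) (Real.rpow_nonneg hy _)

/-- Zeta near `1`, on the scale `1/L`. -/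
theorem zeta_pt (hRH : RiemannHypothesis) (hzb : ZbStatement) : ∃ C : ℝ, 0 < C ∧
    ∀ (L : ℝ) (x : ℂ), 20 ≤ L → x ≠ 0 → -6 ≤ x.re → x.re ≤ 40 →
      ‖riemannZeta (1 + x / L)‖ ≤ C * L * (1 + ‖x‖) ^ (1 / 20 : ℝ) / min ‖x‖ L ∧
      ‖riemannZeta (1 + x / L)‖⁻¹ ≤ C * (1 + ‖x‖) ^ (1 / 20 : ℝ) * min ‖x‖ L / L := by
  obtain ⟨C, hC, h⟩ := hzb hRH (1 / 20) (by norm_num)
  refine ⟨C, hC, ?_⟩
  intro L x hL hx h1 h2
  have hL0 : 0 < L := by linarith
  have hre : (1 + x / (L : ℂ)).re = 1 + x.re / L := by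
    simp [Complex.div_ofReal_re]
  have him : (1 + x / (L : ℂ)).im = x.im / L := by
    simp [Complex.div_ofReal_im]
  have hn : ‖(1 + x / (L : ℂ)) - 1‖ = ‖x‖ / L := by
    rw [add_sub_cancel_left, norm_div, Complex.norm_real, Real.norm_of_nonneg hL0.le]
  have hx0 : 0 < ‖x‖ := norm_pos_iff.mpr hx
  have hLC : (L : ℂ) ≠ 0 := by exact_mod_cast hL0.ne'
  obtain ⟨e1, e2⟩ := h (1 + x / (L : ℂ)) (by
      rw [hre]
      have : -(3 / 10) ≤ x.re / L := by rw [le_div_iff₀ hL0]; linarith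
      linarith) (by
      rw [hre]
      have : x.re / L ≤ 2 := by rw [div_le_iff₀ hL0]; linarith
      linarith) (by
      intro he
      have : x / (L : ℂ) = 0 := by
        have := congrArg (fun z => z - 1) he
        simpa using this
      rcases div_eq_zero_iff.mp this with h3 | h3
      · exact hx h3
      · exact hLC h3)
  set m : ℝ := min ‖x‖ L with hm
  have hm0 : 0 < m := lt_min hx0 hL0
  have hmin : min ‖(1 + x / (L : ℂ)) - 1‖ 1 = m / L := by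
    rw [hn, hm, ← min_div_div_right hL0.le, div_self hL0.ne']
  rw [hmin] at e1 e2
  set z : ℝ := ‖riemannZeta (1 + x / (L : ℂ))‖ with hz
  have hp : (1 + |(1 + x / (L : ℂ)).im|) ^ (1 / 20 : ℝ) ≤ (1 + ‖x‖) ^ (1 / 20 : ℝ) := by
    apply Real.rpow_le_rpow (by positivity) _ (by norm_num)
    rw [him, abs_div, abs_of_pos hL0]
    have h3 : |x.im| / L ≤ |x.im| := by
      apply div_le_self (abs_nonneg _) (by linarith)
    have h4 := Complex.abs_im_le_norm x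
    linarith
  set P : ℝ := (1 + ‖x‖) ^ (1 / 20 : ℝ) with hP
  have hP0 : 0 < P := by positivity
  have hz0 : 0 ≤ z := norm_nonneg _
  constructor
  · have h5 : z * (m / L) ≤ C * P := e1.trans (mul_le_mul_of_nonneg_left hp hC.le)
    rw [le_div_iff₀ hm0]
    have h6 : z * m = z * (m / L) * L := by field_simp
    rw [h6]
    calc z * (m / L) * L ≤ C * P * L := mul_le_mul_of_nonneg_right h5 hL0.le
      _ = C * L * P := by ring
  · have h5 : 1 ≤ C * P * (m / L) * z := by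
      refine e2.trans ?_
      apply mul_le_mul_of_nonneg_right _ hz0
      apply mul_le_mul_of_nonneg_right _ (by positivity)
      exact mul_le_mul_of_nonneg_left hp hC.le
    have hz1 : 0 < z := by
      rcases hz0.lt_or_eq with h6 | h6
      · exact h6
      · rw [← h6, mul_zero] at h5; linarith
    rw [inv_le_iff_one_le_mul₀ hz1]
    calc 1 ≤ C * P * (m / L) * z := h5
      _ = C * P * m / L * z := by ring

theorem norm_frac5 (a b c d e : ℂ) :
    ‖a * b * c / (d * e)‖ = ‖a‖ * ‖b‖ * ‖c‖ * (‖d‖⁻¹ * ‖e‖⁻¹) := by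
  rw [norm_div, norm_mul, norm_mul, norm_mul, div_eq_mul_inv, mul_inv]

theorem norm_frac6 (a b c d e f : ℂ) :
    ‖a * b * c / (d * e * f)‖ = ‖a‖ * ‖b‖ * ‖c‖ * (‖d‖⁻¹ * ‖e‖⁻¹ * ‖f‖⁻¹) := by
  rw [norm_div, norm_mul, norm_mul, norm_mul, norm_mul, div_eq_mul_inv, mul_inv, mul_inv]

/-- The factor `Hz`. -/
theorem hz_bd (hRH : RiemannHypothesis) (hzb : ZbStatement) : ∃ C : ℝ, 0 < C ∧
    ∀ (L : ℝ), 20 ≤ L → ∀ Z ∈ sqB, ∀ A ∈ pd, ∀ W : ℂ, W.re = 2 →
      ‖Hz (1 + Z / L) (fun i => A i / (L : ℂ)) (W / L)‖ / L ≤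
        C * ‖W‖ ^ (1 / 20 : ℝ) * min ‖W‖ L := by
  obtain ⟨C, hC, h⟩ := zeta_pt hRH hzb
  refine ⟨(12 * C) ^ 3 * (2 * C) * (4 * C), by positivity, ?_⟩
  intro L hL Z hZ A hA W hW
  have hL0 : 0 < L := by linarith
  have hZ1 := sqB_le hZ
  have hZ2 := sqB_ge hZ
  have hZ3 := abs_le.mp (sqB_re hZ)
  have hW2 := re_ge hW
  set m : ℝ := min ‖W‖ L with hm
  have hm0 : 0 < m := lt_min (by linarith) hL0
  -- numerators
  have ha : ∀ i, ‖riemannZeta (1 + Z / (L : ℂ) + A i / (L : ℂ))‖ ≤ 12 * C * L := by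
    intro i
    have hAi : ‖A i‖ ≤ 1 / 4 := hA i
    have hq : ‖Z‖ ≤ ‖Z + A i‖ + ‖A i‖ := by
      calc ‖Z‖ = ‖(Z + A i) - A i‖ := by rw [add_sub_cancel_right]
        _ ≤ _ := norm_sub_le _ _
    have hq1 : 1 / 4 ≤ ‖Z + A i‖ := by linarith
    have hq2 : ‖Z + A i‖ ≤ 2 := (norm_add_le _ _).trans (by linarith)
    have hne : Z + A i ≠ 0 := by
      intro h0; rw [h0, norm_zero] at hq1; linarith
    have hre := Complex.abs_re_le_norm (Z + A i)
    have hre' := abs_le.mp hre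
    have he : 1 + Z / (L : ℂ) + A i / (L : ℂ) = 1 + (Z + A i) / (L : ℂ) := by ring
    rw [he]
    refine (h L (Z + A i) hL hne (by linarith) (by linarith)).1.trans ?_
    have hmm : 1 / 4 ≤ min ‖Z + A i‖ L := le_min hq1 (by linarith)
    have hp : (1 + ‖Z + A i‖) ^ (1 / 20 : ℝ) ≤ 3 :=
      (rpow_le_self (by linarith)).trans (by linarith)
    rw [div_le_iff₀ (by linarith)]
    calc C * L * (1 + ‖Z + A i‖) ^ (1 / 20 : ℝ) ≤ C * L * 3 :=
          mul_le_mul_of_nonneg_left hp (by positivity)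
      _ = 12 * C * L * (1 / 4) := by ring
      _ ≤ 12 * C * L * min ‖Z + A i‖ L := mul_le_mul_of_nonneg_left hmm (by positivity)
  have hb : ‖riemannZeta (1 + Z / (L : ℂ))‖⁻¹ ≤ 2 * C / L := by
    have hne : Z ≠ 0 := by
      intro h0; rw [h0, norm_zero] at hZ2; linarith
    refine (h L Z hL hne (by linarith) (by linarith)).2.trans ?_
    apply div_le_div_of_nonneg_right _ hL0.le
    have hp : (1 + ‖Z‖) ^ (1 / 20 : ℝ) ≤ 2 :=
      (rpow_le_self (by linarith)).trans (by linarith)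
    have hmm : min ‖Z‖ L ≤ 1 := (min_le_left _ _).trans hZ1
    have hmm0 : 0 ≤ min ‖Z‖ L := le_min (by linarith) hL0.le
    calc C * (1 + ‖Z‖) ^ (1 / 20 : ℝ) * min ‖Z‖ L ≤ C * 2 * 1 :=
          mul_le_mul (mul_le_mul_of_nonneg_left hp hC.le) hmm hmm0 (by positivity)
      _ = 2 * C := by ring
  have hc : ‖riemannZeta (1 + Z / (L : ℂ) + W / (L : ℂ))‖⁻¹ ≤
      4 * C * ‖W‖ ^ (1 / 20 : ℝ) * m / L := by
    have hre : (Z + W).re = Z.re + 2 := by rw [Complex.add_re, hW]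
    have hne : Z + W ≠ 0 := by
      intro h0; rw [h0, Complex.zero_re] at hre; linarith
    have he : 1 + Z / (L : ℂ) + W / (L : ℂ) = 1 + (Z + W) / (L : ℂ) := by ring
    rw [he]
    refine (h L (Z + W) hL hne (by rw [hre]; linarith) (by rw [hre]; linarith)).2.trans ?_
    apply div_le_div_of_nonneg_right _ hL0.le
    have hn : ‖Z + W‖ ≤ 1 + ‖W‖ := (norm_add_le _ _).trans (by linarith)
    have hp : (1 + ‖Z + W‖) ^ (1 / 20 : ℝ) ≤ 2 * ‖W‖ ^ (1 / 20 : ℝ) :=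
      rpow_two_mul (norm_nonneg _) (by positivity) (by linarith)
    have hmm : min ‖Z + W‖ L ≤ 2 * m := by
      rw [hm]
      rcases le_total ‖W‖ L with h1 | h1
      · rw [min_eq_left h1]
        exact (min_le_left _ _).trans (by linarith)
      · rw [min_eq_right h1]
        exact (min_le_right _ _).trans (by linarith)
    have hmm0 : 0 ≤ min ‖Z + W‖ L := le_min (norm_nonneg _) hL0.le
    calc C * (1 + ‖Z + W‖) ^ (1 / 20 : ℝ) * min ‖Z + W‖ L ≤
          C * (2 * ‖W‖ ^ (1 / 20 : ℝ)) * (2 * m) :=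
          mul_le_mul (mul_le_mul_of_nonneg_left hp hC.le) hmm hmm0 (by positivity)
      _ = 4 * C * ‖W‖ ^ (1 / 20 : ℝ) * m := by ring
  unfold Hz
  rw [Fin.prod_univ_three, norm_frac5]
  have h12 : 0 ≤ 12 * C * L := by positivity
  calc ‖riemannZeta (1 + Z / (L : ℂ) + A 0 / (L : ℂ))‖ *
        ‖riemannZeta (1 + Z / (L : ℂ) + A 1 / (L : ℂ))‖ *
        ‖riemannZeta (1 + Z / (L : ℂ) + A 2 / (L : ℂ))‖ *
        (‖riemannZeta (1 + Z / (L : ℂ))‖⁻¹ * ‖riemannZeta (1 + Z / (L : ℂ) + W / (L : ℂ))‖⁻¹) / L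
      ≤ (12 * C * L) * (12 * C * L) * (12 * C * L) *
        ((2 * C / L) * (4 * C * ‖W‖ ^ (1 / 20 : ℝ) * m / L)) / L := by
        apply div_le_div_of_nonneg_right _ hL0.le
        apply mul_le_mul
        · apply mul_le_mul
          · exact mul_le_mul (ha 0) (ha 1) (norm_nonneg _) h12
          · exact ha 2
          · exact norm_nonneg _
          · positivity
        · exact mul_le_mul hb hc (by positivity) (by positivity)
        · positivity
        · positivity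
    _ = (12 * C) ^ 3 * (2 * C) * (4 * C) * ‖W‖ ^ (1 / 20 : ℝ) * m := by
        field_simp

theorem ln_re (u : ℝ) : (ln u).re = 2 := by
  unfold ln
  simp

/-- `Reg` and the other hypotheses of SME. -/
theorem reg_ok {L : ℝ} (hL : 200 ≤ L) {Z : ℂ} (hZ : Z ∈ sqB) {A : Fin 3 → ℂ} (hA : A ∈ pd)
    {W V : ℂ} (hW : W.re = 2) (hV : V.re = 2) :
    Reg (1 + Z / L) (V / L) (W / L) (fun i => A i / (L : ℂ)) ∧ 0 < (V / (L : ℂ)).re ∧
      0 < (W / (L : ℂ)).re ∧ ((1 + Z / (L : ℂ)) - 1).re < (V / (L : ℂ)).re ∧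
      ∀ i, -(A i / (L : ℂ)).re < (V / (L : ℂ)).re := by
  have hL0 : 0 < L := by linarith
  have hZ1 := sqB_le hZ
  have hZ3 := abs_le.mp (sqB_re hZ)
  have hVr : (V / (L : ℂ)).re = 2 / L := by rw [Complex.div_ofReal_re, hV]
  have hWr : (W / (L : ℂ)).re = 2 / L := by rw [Complex.div_ofReal_re, hW]
  have h2 : 0 < 2 / L := by positivity
  have h3 : 2 / L ≤ 1 / 100 := by rw [div_le_div_iff₀ hL0 (by norm_num)]; linarith
  have h4 : 1 / L ≤ 1 / 100 := by rw [div_le_div_iff₀ hL0 (by norm_num)]; linarith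
  refine ⟨⟨?_, ?_, ?_, ?_⟩, ?_, ?_, ?_, ?_⟩
  · rw [add_sub_cancel_left, norm_div, Complex.norm_real, Real.norm_of_nonneg hL0.le]
    exact (div_le_div_of_nonneg_right hZ1 hL0.le).trans h4
  · intro i
    have hAi : ‖A i‖ ≤ 1 / 4 := hA i
    rw [norm_div, Complex.norm_real, Real.norm_of_nonneg hL0.le]
    exact (div_le_div_of_nonneg_right (by linarith : ‖A i‖ ≤ 1) hL0.le).trans h4
  · rw [hVr, abs_of_pos h2]; exact h3
  · rw [hWr, abs_of_pos h2]; exact h3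
  · rw [hVr]; exact h2
  · rw [hWr]; exact h2
  · rw [add_sub_cancel_left, hVr, Complex.div_ofReal_re]
    apply div_lt_div_of_pos_right _ hL0
    linarith
  · intro i
    have hAi : ‖A i‖ ≤ 1 / 4 := hA i
    have hr := (abs_le.mp (Complex.abs_re_le_norm (A i))).1
    rw [hVr, Complex.div_ofReal_re, ← neg_div]
    apply div_lt_div_of_pos_right _ hL0
    linarith

/-- The factor `SM`. -/
theorem sm_bd (hRH : RiemannHypothesis) (hzb : ZbStatement) (hsme : SmeStatement)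
    (haab : AabStatement) : ∃ C : ℝ, 0 < C ∧
    ∀ (L : ℝ), 200 ≤ L → ∀ Z ∈ sqB, ∀ A ∈ pd, ∀ W V : ℂ, W.re = 2 → V.re = 2 →
      ‖SM (1 + Z / L) (V / L) (W / L) (fun i => A i / (L : ℂ))‖ ≤
        C * ‖W‖ ^ (1 / 20 : ℝ) * ‖V‖ ^ (3 / 10 : ℝ) * (min ‖V‖ L / min ‖V + W‖ L) := by
  obtain ⟨C, hC, h⟩ := zeta_pt hRH hzb
  obtain ⟨CA, hCA, hab⟩ := haab
  refine ⟨(2 * C) * (2 * C) * (4 * C) * (4 * C) ^ 3 * CA, by positivity, ?_⟩
  intro L hL Z hZ A hA W V hW hV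
  have hL0 : 0 < L := by linarith
  have hL20 : 20 ≤ L := by linarith
  have hZ1 := sqB_le hZ
  have hZ3 := abs_le.mp (sqB_re hZ)
  have hW2 := re_ge hW
  have hV2 := re_ge hV
  obtain ⟨hreg, c1, c2, c3, c4⟩ := reg_ok hL hZ hA hW hV
  have hAA := (hab _ _ _ _ hreg).2.2
  rw [(hsme _ _ _ _ hreg c1 c2 c3 c4).2]
  set m : ℝ := min ‖V‖ L with hm
  have hm0 : 0 < m := lt_min (by linarith) hL0
  have hVWre : (V + W).re = 4 := by rw [Complex.add_re, hV, hW]; norm_num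
  have hVW4 : 4 ≤ ‖V + W‖ := by
    have := Complex.re_le_norm (V + W)
    rw [hVWre] at this; exact this
  set m2 : ℝ := min ‖V + W‖ L with hm2
  have hm20 : 0 < m2 := lt_min (by linarith) hL0
  set v : ℝ := ‖V‖ ^ (1 / 20 : ℝ) with hv
  set w : ℝ := ‖W‖ ^ (1 / 20 : ℝ) with hw
  have hv0 : 0 < v := by positivity
  have hw0 : 0 < w := by positivity
  -- first factor
  have z1 : ‖riemannZeta (1 + V / (L : ℂ))‖ ≤ 2 * C * L * v / m := by
    have hne : V ≠ 0 := by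
      intro h0; rw [h0, norm_zero] at hV2; linarith
    refine (h L V hL20 hne (by linarith) (by linarith)).1.trans ?_
    apply div_le_div_of_nonneg_right _ hm0.le
    have hp : (1 + ‖V‖) ^ (1 / 20 : ℝ) ≤ 2 * v :=
      rpow_two_mul (norm_nonneg _) (by positivity) (by linarith)
    calc C * L * (1 + ‖V‖) ^ (1 / 20 : ℝ) ≤ C * L * (2 * v) :=
          mul_le_mul_of_nonneg_left hp (by positivity)
      _ = 2 * C * L * v := by ring
  have z2 : ‖riemannZeta (1 + V / (L : ℂ) + W / (L : ℂ))‖ ≤ 2 * C * L * (v * w) / m2 := by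
    have hne : V + W ≠ 0 := by
      intro h0; rw [h0, norm_zero] at hVW4; linarith
    have he : 1 + V / (L : ℂ) + W / (L : ℂ) = 1 + (V + W) / (L : ℂ) := by ring
    rw [he]
    refine (h L (V + W) hL20 hne (by rw [hVWre]; norm_num) (by rw [hVWre]; norm_num)).1.trans ?_
    apply div_le_div_of_nonneg_right _ hm20.le
    have hp : (1 + ‖V + W‖) ^ (1 / 20 : ℝ) ≤ 2 * (v * w) := by
      have h1 : 1 + ‖V + W‖ ≤ 2 * (‖V‖ * ‖W‖) := by
        have := norm_add_le V W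
        nlinarith [mul_le_mul hV2 hW2 (by norm_num) (norm_nonneg V)]
      have h2 := rpow_two_mul (x := 1 + ‖V + W‖) (y := ‖V‖ * ‖W‖) (by positivity) (by positivity) h1
      rw [Real.mul_rpow (norm_nonneg _) (norm_nonneg _)] at h2
      exact h2
    calc C * L * (1 + ‖V + W‖) ^ (1 / 20 : ℝ) ≤ C * L * (2 * (v * w)) :=
          mul_le_mul_of_nonneg_left hp (by positivity)
      _ = 2 * C * L * (v * w) := by ring
  have z3 : ‖riemannZeta (2 - (1 + Z / (L : ℂ)) + V / (L : ℂ))‖ ≤ 4 * C * L * v / m := by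
    have hre : (V - Z).re = 2 - Z.re := by rw [Complex.sub_re, hV]
    have hne : V - Z ≠ 0 := by
      intro h0; rw [h0, Complex.zero_re] at hre; linarith
    have he : 2 - (1 + Z / (L : ℂ)) + V / (L : ℂ) = 1 + (V - Z) / (L : ℂ) := by ring
    rw [he]
    refine (h L (V - Z) hL20 hne (by rw [hre]; linarith) (by rw [hre]; linarith)).1.trans ?_
    have hn1 : ‖V - Z‖ ≤ ‖V‖ + 1 := (norm_sub_le _ _).trans (by linarith)
    have hn2 : ‖V‖ / 2 ≤ ‖V - Z‖ := by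
      have : ‖V‖ ≤ ‖V - Z‖ + ‖Z‖ := by
        calc ‖V‖ = ‖(V - Z) + Z‖ := by rw [sub_add_cancel]
          _ ≤ _ := norm_add_le _ _
      linarith
    have hmm : m / 2 ≤ min ‖V - Z‖ L := by
      apply le_min
      · exact (div_le_div_of_nonneg_right (min_le_left _ _) (by norm_num)).trans hn2
      · have : m ≤ L := min_le_right _ _
        linarith
    have hp : (1 + ‖V - Z‖) ^ (1 / 20 : ℝ) ≤ 2 * v :=
      rpow_two_mul (norm_nonneg _) (by positivity) (by linarith)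
    rw [div_le_div_iff₀ (by linarith) hm0]
    calc C * L * (1 + ‖V - Z‖) ^ (1 / 20 : ℝ) * m ≤ C * L * (2 * v) * m := by
          apply mul_le_mul_of_nonneg_right _ hm0.le
          exact mul_le_mul_of_nonneg_left hp (by positivity)
      _ = 4 * C * L * v * (m / 2) := by ring
      _ ≤ 4 * C * L * v * min ‖V - Z‖ L := mul_le_mul_of_nonneg_left hmm (by positivity)
  have z4 : ∀ i, ‖riemannZeta (1 + V / (L : ℂ) + A i / (L : ℂ))‖⁻¹ ≤ 4 * C * v * m / L := by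
    intro i
    have hAi : ‖A i‖ ≤ 1 / 4 := hA i
    have hr := abs_le.mp (Complex.abs_re_le_norm (A i))
    have hre : (V + A i).re = 2 + (A i).re := by rw [Complex.add_re, hV]
    have hne : V + A i ≠ 0 := by
      intro h0; rw [h0, Complex.zero_re] at hre; linarith
    have he : 1 + V / (L : ℂ) + A i / (L : ℂ) = 1 + (V + A i) / (L : ℂ) := by ring
    rw [he]
    refine (h L (V + A i) hL20 hne (by rw [hre]; linarith) (by rw [hre]; linarith)).2.trans ?_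
    apply div_le_div_of_nonneg_right _ hL0.le
    have hn1 : ‖V + A i‖ ≤ ‖V‖ + 1 := (norm_add_le _ _).trans (by linarith)
    have hmm : min ‖V + A i‖ L ≤ 2 * m := by
      rw [hm]
      rcases le_total ‖V‖ L with h1 | h1
      · rw [min_eq_left h1]
        exact (min_le_left _ _).trans (by linarith)
      · rw [min_eq_right h1]
        exact (min_le_right _ _).trans (by linarith)
    have hmm0 : 0 ≤ min ‖V + A i‖ L := le_min (norm_nonneg _) hL0.le
    have hp : (1 + ‖V + A i‖) ^ (1 / 20 : ℝ) ≤ 2 * v :=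
      rpow_two_mul (norm_nonneg _) (by positivity) (by linarith)
    calc C * (1 + ‖V + A i‖) ^ (1 / 20 : ℝ) * min ‖V + A i‖ L ≤ C * (2 * v) * (2 * m) :=
          mul_le_mul (mul_le_mul_of_nonneg_left hp hC.le) hmm hmm0 (by positivity)
      _ = 4 * C * v * m := by ring
  have hv6 : ‖V‖ ^ (3 / 10 : ℝ) = v ^ 6 := by
    rw [hv, ← Real.rpow_natCast, ← Real.rpow_mul (norm_nonneg _)]
    norm_num
  rw [hv6, Fin.prod_univ_three, norm_mul, norm_frac6]
  have hq : 0 ≤ 4 * C * v * m / L := by positivity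
  calc ‖riemannZeta (1 + V / (L : ℂ))‖ * ‖riemannZeta (1 + V / (L : ℂ) + W / (L : ℂ))‖ *
        ‖riemannZeta (2 - (1 + Z / (L : ℂ)) + V / (L : ℂ))‖ *
        (‖riemannZeta (1 + V / (L : ℂ) + A 0 / (L : ℂ))‖⁻¹ *
          ‖riemannZeta (1 + V / (L : ℂ) + A 1 / (L : ℂ))‖⁻¹ *
          ‖riemannZeta (1 + V / (L : ℂ) + A 2 / (L : ℂ))‖⁻¹) *
        ‖AA (1 + Z / (L : ℂ)) (V / (L : ℂ)) (W / (L : ℂ)) (fun i => A i / (L : ℂ))‖
      ≤ (2 * C * L * v / m) * (2 * C * L * (v * w) / m2) * (4 * C * L * v / m) *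
        ((4 * C * v * m / L) * (4 * C * v * m / L) * (4 * C * v * m / L)) * CA := by
        apply mul_le_mul _ hAA (norm_nonneg _) (by positivity)
        apply mul_le_mul
        · apply mul_le_mul
          · exact mul_le_mul z1 z2 (norm_nonneg _) (by positivity)
          · exact z3
          · exact norm_nonneg _
          · positivity
        · apply mul_le_mul
          · exact mul_le_mul (z4 0) (z4 1) (by positivity) hq
          · exact z4 2
          · positivity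
          · positivity
        · positivity
        · positivity
    _ = (2 * C) * (2 * C) * (4 * C) * (4 * C) ^ 3 * CA * w * v ^ 6 * (m / m2) := by
        field_simp

/-- The factor `PH`. -/
theorem ph_bd (th c1 c2 : ℝ) (hth : 0 < th) : ∀ V : ℂ, V.re = 2 →
    ‖PH th c1 c2 V‖ ≤ (|c1| / th + |c2| / th ^ 2) * ‖V‖ ^ (-2 : ℝ) := by
  intro V hV
  have hV2 := re_ge hV
  have hV0 : 0 < ‖V‖ := by linarith
  have hr : ‖V‖ ^ (-2 : ℝ) = 1 / ‖V‖ ^ 2 := by
    rw [Real.rpow_neg hV0.le, one_div]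
    norm_num
  unfold PH
  refine (norm_add_le _ _).trans ?_
  have h1 : ‖(c1 : ℂ) / (th * V ^ 2)‖ = |c1| / th * (1 / ‖V‖ ^ 2) := by
    rw [norm_div, norm_mul, norm_pow, Complex.norm_real, Complex.norm_real, Real.norm_eq_abs,
      Real.norm_of_nonneg hth.le]
    field_simp
  have h2 : ‖2 * (c2 : ℂ) / (th ^ 2 * V ^ 3)‖ ≤ |c2| / th ^ 2 * (1 / ‖V‖ ^ 2) := by
    rw [norm_div, norm_mul, norm_mul, norm_pow, norm_pow, Complex.norm_real, Complex.norm_real,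
      Real.norm_eq_abs, Real.norm_of_nonneg hth.le, Complex.norm_ofNat]
    rw [div_mul_div_comm, div_le_div_iff₀ (by positivity) (by positivity)]
    have h3 : 0 ≤ |c2| * th ^ 2 * ‖V‖ ^ 2 := by positivity
    have h4 := mul_le_mul_of_nonneg_left hV2 h3
    calc 2 * |c2| * (th ^ 2 * ‖V‖ ^ 2) = |c2| * th ^ 2 * ‖V‖ ^ 2 * 2 := by ring
      _ ≤ |c2| * th ^ 2 * ‖V‖ ^ 2 * ‖V‖ := h4
      _ = |c2| * 1 * (th ^ 2 * ‖V‖ ^ 3) := by ring
  rw [h1, hr]
  calc |c1| / th * (1 / ‖V‖ ^ 2) + ‖2 * (c2 : ℂ) / (th ^ 2 * V ^ 3)‖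
      ≤ |c1| / th * (1 / ‖V‖ ^ 2) + |c2| / th ^ 2 * (1 / ‖V‖ ^ 2) := by linarith
    _ = (|c1| / th + |c2| / th ^ 2) * (1 / ‖V‖ ^ 2) := by ring

/-- The majorant of MJ. -/
noncomputable def mj (W : ℂ) (u : ℝ) : ℝ :=
  (‖ln u‖ * ‖W‖ / ‖ln u + W‖ + Real.sqrt (‖ln u‖ * ‖W‖)) * ‖ln u‖ ^ (-(17 / 10) : ℝ)

/-- The `V`-integrand. -/
theorem int_bd (hRH : RiemannHypothesis) (hzb : ZbStatement) (hsme : SmeStatement)
    (haab : AabStatement) (hmj : MjStatement) (th c1 c2 : ℝ) (hth : 0 < th) (hth2 : th < 1 / 2) :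
    ∃ C : ℝ, 0 ≤ C ∧
    ∀ (L : ℝ), 200 ≤ L → ∀ Z ∈ sqB, ∀ A ∈ pd, ∀ W : ℂ, W.re = 2 → ∀ u : ℝ,
      ‖PH th c1 c2 (ln u) * Complex.exp (th * ln u) *
        SM (1 + Z / L) (ln u / L) (W / L) (fun i => A i / (L : ℂ))‖ * min ‖W‖ L ≤
        C * ‖W‖ ^ (1 / 20 : ℝ) * mj W u := by
  obtain ⟨C, hC, h⟩ := sm_bd hRH hzb hsme haab
  set CP : ℝ := |c1| / th + |c2| / th ^ 2 with hCP
  have hCP0 : 0 ≤ CP := by positivity
  refine ⟨CP * 3 * C, by positivity, ?_⟩
  intro L hL Z hZ A hA W hW u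
  have hL0 : 0 < L := by linarith
  set V : ℂ := ln u with hV
  have hVre : V.re = 2 := ln_re u
  have hV2 := re_ge hVre
  have hW2 := re_ge hW
  have hS := h L hL Z hZ A hA W V hW hVre
  have hP := ph_bd th c1 c2 hth V hVre
  have hE : ‖Complex.exp (th * V)‖ ≤ 3 := by
    rw [Complex.norm_exp]
    have : ((th : ℂ) * V).re = th * 2 := by simp [hVre]
    rw [this]
    have h1 : Real.exp (th * 2) ≤ Real.exp 1 := Real.exp_le_exp.mpr (by linarith)
    linarith [Real.exp_one_lt_d9]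
  have hVWre : (V + W).re = 4 := by rw [Complex.add_re, hVre, hW]; norm_num
  have hVW4 : 4 ≤ ‖V + W‖ := by
    have := Complex.re_le_norm (V + W)
    rw [hVWre] at this; exact this
  have hmin := hmj.1 L ‖V‖ ‖W‖ ‖V + W‖ hL0 (norm_nonneg _) (norm_nonneg _) (by linarith)
  rw [norm_mul, norm_mul]
  set m : ℝ := min ‖V‖ L with hm
  set m2 : ℝ := min ‖V + W‖ L with hm2
  set mw : ℝ := min ‖W‖ L with hmw
  have hm0 : 0 ≤ m := le_min (norm_nonneg _) hL0.le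
  have hm20 : 0 < m2 := lt_min (by linarith) hL0
  have hmw0 : 0 ≤ mw := le_min (norm_nonneg _) hL0.le
  set w : ℝ := ‖W‖ ^ (1 / 20 : ℝ) with hw
  have hw0 : 0 ≤ w := by positivity
  have hVp : ‖V‖ ^ (-2 : ℝ) * ‖V‖ ^ (3 / 10 : ℝ) = ‖V‖ ^ (-(17 / 10) : ℝ) := by
    rw [← Real.rpow_add (by linarith)]
    norm_num
  calc ‖PH th c1 c2 V‖ * ‖Complex.exp (th * V)‖ *
        ‖SM (1 + Z / (L : ℂ)) (V / (L : ℂ)) (W / (L : ℂ)) (fun i => A i / (L : ℂ))‖ * mw
      ≤ (CP * ‖V‖ ^ (-2 : ℝ)) * 3 * (C * w * ‖V‖ ^ (3 / 10 : ℝ) * (m / m2)) * mw := by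
        apply mul_le_mul_of_nonneg_right _ hmw0
        apply mul_le_mul
        · exact mul_le_mul hP hE (norm_nonneg _) (by positivity)
        · exact hS
        · exact norm_nonneg _
        · positivity
    _ = (CP * 3 * C) * w * ((m * mw / m2) * (‖V‖ ^ (-2 : ℝ) * ‖V‖ ^ (3 / 10 : ℝ))) := by ring
    _ ≤ (CP * 3 * C) * w * ((‖V‖ * ‖W‖ / ‖V + W‖ + Real.sqrt (‖V‖ * ‖W‖)) *
          ‖V‖ ^ (-(17 / 10) : ℝ)) := by
        apply mul_le_mul_of_nonneg_left _ (by positivity)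
        rw [hVp]
        exact mul_le_mul_of_nonneg_right hmin (by positivity)
    _ = (CP * 3 * C) * w * mj W u := by
        unfold mj
        rw [← hV]

end Pool.Agent.Lib.MP_6bc78b_nt.MS.P3.H34
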